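import Pool.Agent.H474.RZ.Stm2

/-!
Project RZ (helper474), task NZ: linear independence of the functions `Ξ_{-μ}(z - y)`.
-/

set_option autoImplicit false

open Complex MeasureTheory Filter Topology

namespace Pool.Agent.H591.RZ.NZ

open Pool.Agent.Helper242.KK
open scoped FourierTransform

/-- the entire function `m` -/
noncomputable def mm {J : ℕ} (c mu y : Fin J → ℝ) (z : ℂ) : ℂ :=
  ∑ j, ((c j : ℝ) : ℂ) * cexp (-(((mu j : ℝ) : ℂ) * z ^ 2) - I * ((y j : ℝ) : ℂ) * z)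

lemma mm_diff {J : ℕ} (c mu y : Fin J → ℝ) : Differentiable ℂ (mm c mu y) := by
  unfold mm
  fun_prop

/-- step 1 -/
lemma mm_real {J : ℕ} {c mu y : Fin J → ℝ} (hmu : ∀ j, 0 < mu j)
    (h : ∀ x : ℝ, ∑ j, ((c j : ℝ) : ℂ) * XiM (mu j) ((x : ℂ) - ((y j : ℝ) : ℂ)) = 0) (t : ℝ) :
    mm c mu y (t : ℂ) = 0 := by
  set f : ℝ → ℂ := fun t => ∑ j, ((c j : ℝ) : ℂ) *
    (((wk (mu j) t : ℝ) : ℂ) * cexp (I * (-((y j : ℝ) : ℂ)) * t)) with hf
  have hcont : Continuous f := by
    refine continuous_finsetSum _ fun j _ => ?_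
    have := continuous_wk (mu j)
    fun_prop
  have hint : ∀ (j : Fin J) (z : ℂ), Integrable (fun t : ℝ => ((wk (mu j) t : ℝ) : ℂ) *
      cexp (I * z * t)) := by
    intro j z
    obtain ⟨A, -, hA⟩ := wk_upper (hmu j).le
    exact integrable_FT (continuous_wk (mu j)) hA z
  have hfi : Integrable f := integrable_finsetSum _ fun j _ => (hint j _).const_mul _
  have hF : 𝓕 f = fun _ => 0 := by
    funext w
    rw [Real.fourier_real_eq_integral_exp_smul]
    have h1 := h (-2 * Real.pi * w)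
    have h2 : ∑ j, ((c j : ℝ) : ℂ) * XiM (mu j) (((-2 * Real.pi * w : ℝ) : ℂ) - ((y j : ℝ) : ℂ)) =
        ∫ v : ℝ, ∑ j, ((c j : ℝ) : ℂ) * (((wk (mu j) v : ℝ) : ℂ) *
          cexp (I * (((-2 * Real.pi * w : ℝ) : ℂ) - ((y j : ℝ) : ℂ)) * v)) := by
      rw [integral_finsetSum _ fun j _ => (hint j _).const_mul _]
      refine Finset.sum_congr rfl fun j _ => ?_
      rw [integral_const_mul]
      rfl
    rw [h2] at h1
    rw [← h1]
    refine integral_congr_ae (Eventually.of_forall fun v => ?_)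
    simp only [hf]
    rw [smul_eq_mul, Finset.mul_sum]
    refine Finset.sum_congr rfl fun j _ => ?_
    have e1 : cexp (I * (((-2 * Real.pi * w : ℝ) : ℂ) - ((y j : ℝ) : ℂ)) * v) =
        cexp (((-2 * Real.pi * v * w : ℝ) : ℂ) * I) * cexp (I * (-((y j : ℝ) : ℂ)) * v) := by
      rw [← Complex.exp_add]
      congr 1
      push_cast
      ring
    rw [e1]
    ring
  have hf0 : f = fun _ => 0 := by
    have h1 := Continuous.fourierInv_fourier_eq hcont hfi (by rw [hF]; exact integrable_zero _ _ _)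
    rw [← h1, hF]
    funext v
    rw [Real.fourierInv_eq]
    simp
  have h1 : f t = 0 := by rw [hf0]
  have h2 : f t = ((Ph t : ℝ) : ℂ) * mm c mu y (t : ℂ) := by
    simp only [hf, mm]
    rw [Finset.mul_sum]
    refine Finset.sum_congr rfl fun j _ => ?_
    have e1 : cexp (-(((mu j : ℝ) : ℂ) * (t : ℂ) ^ 2) - I * ((y j : ℝ) : ℂ) * t) =
        ((Real.exp (-mu j * t ^ 2) : ℝ) : ℂ) * cexp (I * (-((y j : ℝ) : ℂ)) * t) := by
      rw [Complex.ofReal_exp, ← Complex.exp_add]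
      congr 1
      push_cast
      ring
    rw [e1]
    unfold wk
    push_cast
    ring
  rw [h2] at h1
  have h3 : ((Ph t : ℝ) : ℂ) ≠ 0 := by exact_mod_cast (Ph_pos t).ne'
  exact (mul_eq_zero.1 h1).resolve_left h3

/-- step 2: the identity theorem -/
lemma mm_zero {J : ℕ} {c mu y : Fin J → ℝ} (h : ∀ t : ℝ, mm c mu y (t : ℂ) = 0) (z : ℂ) :
    mm c mu y z = 0 := by
  have h1 : AnalyticOnNhd ℂ (mm c mu y) Set.univ := fun z _ =>
    (mm_diff c mu y).analyticAt z
  have h2 : AnalyticOnNhd ℂ (fun _ : ℂ => (0 : ℂ)) Set.univ := analyticOnNhd_const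
  have h3 : ∃ᶠ z in 𝓝[≠] (0 : ℂ), mm c mu y z = (fun _ : ℂ => (0 : ℂ)) z := by
    have h4 : Tendsto (fun n : ℕ => ((1 / ((n : ℝ) + 1) : ℝ) : ℂ)) atTop (𝓝[≠] (0 : ℂ)) := by
      refine tendsto_nhdsWithin_iff.2 ⟨?_, Eventually.of_forall fun n => ?_⟩
      · have h5 := tendsto_one_div_add_atTop_nhds_zero_nat (𝕜 := ℝ)
        have h6 := (Complex.continuous_ofReal.tendsto (0 : ℝ)).comp h5
        rw [Complex.ofReal_zero] at h6
        exact h6
      · have h5 : (1 / ((n : ℝ) + 1) : ℝ) ≠ 0 := by positivity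
        exact fun h6 => h5 (Complex.ofReal_eq_zero.1 h6)
    exact h4.frequently (Frequently.of_forall fun n => h _)
  exact congrFun (h1.eq_of_frequently_eq h2 h3) z

lemma tend {a b : ℝ} (h : a < 0 ∨ (a = 0 ∧ b < 0)) :
    Tendsto (fun s : ℝ => Real.exp (a * s ^ 2 + b * s)) atTop (𝓝 0) := by
  refine Real.tendsto_exp_atBot.comp ?_
  rcases h with h | ⟨h, hb⟩
  · have h1 : Tendsto (fun s : ℝ => a * s + b) atTop atBot :=
      tendsto_atBot_add_const_right _ b (tendsto_id.const_mul_atTop_of_neg h)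
    have h2 : Tendsto (fun s : ℝ => s * (a * s + b)) atTop atBot := tendsto_id.atTop_mul_atBot₀ h1
    refine h2.congr fun s => ?_
    ring
  · subst h
    refine (tendsto_id.const_mul_atTop_of_neg hb).congr fun s => ?_
    simp

theorem t_NZ : Pool.Agent.H474.RZ.S_NZ := by
  intro J c mu y hmu hinj hne
  by_contra hcon
  simp only [not_exists, not_not] at hcon
  have h0 := mm_zero (mm_real hmu hcon)
  -- the lexicographic maximum
  obtain ⟨j₀, hj₀, hmax⟩ := Finset.exists_max_image (Finset.univ.filter fun j => c j ≠ 0)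
    (fun j => toLex (mu j, y j)) (by
      obtain ⟨j, hj⟩ := hne
      exact ⟨j, Finset.mem_filter.2 ⟨Finset.mem_univ _, hj⟩⟩)
  rw [Finset.mem_filter] at hj₀
  have h1 : ∀ s : ℝ, ∑ j, c j * Real.exp ((mu j - mu j₀) * s ^ 2 + (y j - y j₀) * s) = 0 := by
    intro s
    have h2 := h0 (I * (s : ℂ))
    have h3 : mm c mu y (I * (s : ℂ)) = ((∑ j, c j * Real.exp (mu j * s ^ 2 + y j * s) : ℝ) : ℂ) := by
      unfold mm
      push_cast
      refine Finset.sum_congr rfl fun j _ => ?_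
      congr 2
      have hI : I ^ 2 = -1 := I_sq
      calc -(((mu j : ℝ) : ℂ) * (I * (s : ℂ)) ^ 2) - I * ((y j : ℝ) : ℂ) * (I * (s : ℂ))
          = -(((mu j : ℝ) : ℂ) * (s : ℂ) ^ 2 * I ^ 2) - ((y j : ℝ) : ℂ) * (s : ℂ) * I ^ 2 := by ring
        _ = ((mu j : ℝ) : ℂ) * (s : ℂ) ^ 2 + ((y j : ℝ) : ℂ) * (s : ℂ) := by rw [hI]; ring
    rw [h3] at h2
    have h4 : ∑ j, c j * Real.exp (mu j * s ^ 2 + y j * s) = 0 := by exact_mod_cast h2
    have h5 : ∑ j, c j * Real.exp ((mu j - mu j₀) * s ^ 2 + (y j - y j₀) * s) =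
        (∑ j, c j * Real.exp (mu j * s ^ 2 + y j * s)) * Real.exp (-(mu j₀ * s ^ 2 + y j₀ * s)) := by
      rw [Finset.sum_mul]
      refine Finset.sum_congr rfl fun j _ => ?_
      rw [mul_assoc, ← Real.exp_add]
      congr 2
      ring
    rw [h5, h4, zero_mul]
  have h2 : Tendsto (fun s : ℝ => ∑ j, c j * Real.exp ((mu j - mu j₀) * s ^ 2 + (y j - y j₀) * s))
      atTop (𝓝 (∑ j, if j = j₀ then c j₀ else 0)) := by
    refine tendsto_finsetSum _ fun j _ => ?_
    by_cases hj : j = j₀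
    · subst hj
      rw [if_pos rfl]
      refine tendsto_const_nhds.congr fun s => ?_
      simp
    · rw [if_neg hj]
      by_cases hc : c j = 0
      · refine tendsto_const_nhds.congr fun s => ?_
        rw [hc, zero_mul]
      · have h3 := hmax j (Finset.mem_filter.2 ⟨Finset.mem_univ _, hc⟩)
        rw [Prod.Lex.toLex_le_toLex] at h3
        have h4 : mu j - mu j₀ < 0 ∨ (mu j - mu j₀ = 0 ∧ y j - y j₀ < 0) := by
          rcases h3 with h3 | ⟨h3, h5⟩
          · exact Or.inl (sub_neg.2 h3)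
          · refine Or.inr ⟨sub_eq_zero.2 h3, sub_neg.2 (lt_of_le_of_ne h5 fun h6 => hj ?_)⟩
            exact hinj (Prod.ext h3 h6)
        have h5 := (tend h4).const_mul (c j)
        rwa [mul_zero] at h5
  have h3 : Tendsto (fun s : ℝ => ∑ j, c j * Real.exp ((mu j - mu j₀) * s ^ 2 + (y j - y j₀) * s))
      atTop (𝓝 0) := tendsto_const_nhds.congr fun s => (h1 s).symm
  have h4 := tendsto_nhds_unique h2 h3
  rw [Finset.sum_ite_eq' Finset.univ j₀ (fun _ => c j₀)] at h4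
  simp only [Finset.mem_univ, if_true] at h4
  exact hj₀.2 h4

end Pool.Agent.H591.RZ.NZ
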